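import Mathlib
import Pool.Agent.E8helper26.EO.Exc
import Pool.Agent.Y86.EP.Kum
import Pool.Agent.Y279.EP.Up
import Pool.Agent.Y925.EP.Tower
import Pool.Agent.Y419.EP.Inert
import Pool.Agent.Y469.EP.Max
import Pool.Agent.Y349.EP.Symm
import Pool.Agent.Y349.EP.NG

set_option autoImplicit false

/-! # MP_600e55_nt: valuations and partitions of `F*/T`, `p` odd, arbitrary index

Let `F` contain a primitive `p`-th root of unity, `p` odd, and let `T ⊇ F*^p` be a subgroup of `F*`.
If `F*/T` has a partition into proper subgroups such that `x` and `1 + x` lie in the same part for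
all `x ∉ T`, then there is a valuation ring `O` with `1 + m ⊆ T` such that `O*` lies in one of the
parts, or `O` is exceptional: the residue characteristic is `p` and the residues of `T ∩ O*` are the
nonzero elements of a proper subfield.  The second case does not occur if `T = F*^p` or if the parts
are finite modulo `T`.  For `T = F*^p` nothing is assumed about the size of `F*/F*^p`, of the parts
or of the norm groups, and the conclusion of Q1 holds.  Fields with transitive symbols are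
classified without finiteness assumptions.

Idea: if the elements `x ∉ T` for which `1 + x` has neither the class of `1` nor the class of `x`
are not all in one part, then they generate the units of a valuation ring whose residue field `k`
has a proper subfield `k₀` which contains all `p`-th powers.  If `p ≠ 0` in `k` then interpolation
shows that `k₀` is finite, so `k` is finite and `k*` is cyclic, a contradiction.  If `p = 0` in `k`
and `T = F*^p` then all units are `p`-th powers, as `1 + (ζ - 1) O ⊆ F*^p`. -/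

namespace Pool.Agent.Results.MP_600e55_nt.OddPartitionsH26

open Pool.Agent.Y920.EP

/-- the group of `p`-th powers of `F*` -/
def powers (F : Type) [Field F] (p : ℕ) : Subgroup Fˣ := (powMonoidHom p : Fˣ →* Fˣ).range

open Polynomial in
/-- the norms to `F` of the units of the algebra `F[X]/(X^p - a)`: the norm group of the field
`F(a^(1/p))` if `a` is not a `p`-th power -/
noncomputable def normGroup {F : Type} [Field F] (p : ℕ) (a : Fˣ) : Subgroup Fˣ :=
  (Units.map (Algebra.norm F : AdjoinRoot (X ^ p - C (a : F)) →* F)).range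

/-- `K` is the compositum of the finite Galois extensions of `F` of `p`-power degree -/
def IsMaximalPExtension (p : ℕ) {F : Type} [Field F]
    (K : IntermediateField F (AlgebraicClosure F)) : Prop :=
  K = sSup {L : IntermediateField F (AlgebraicClosure F) |
    FiniteDimensional F L ∧ IsGalois F L ∧ ∃ k : ℕ, Module.finrank F L = p ^ k}

/-- `H` is the decomposition group in `Gal(K/F)` of a valuation of `K`, and the inertia group is
not trivial -/
def IsDecompositionGroup {F : Type} [Field F] {K : IntermediateField F (AlgebraicClosure F)}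
    (H : Subgroup (↥K ≃ₐ[F] ↥K)) : Prop :=
  ∃ (Γ : Type) (_ : LinearOrderedCommGroupWithZero Γ) (w : Valuation K Γ),
    (∀ σ : ↥K ≃ₐ[F] ↥K, σ ∈ H ↔ ∀ x : ↥K, (w (σ x) ≤ 1 ↔ w x ≤ 1)) ∧
    ∃ σ ∈ H, σ ≠ 1 ∧ ∀ x : ↥K, w x ≤ 1 → w (σ x - x) < 1

/-- `G` is the free pro-`p` product of its subgroups `H i` (for a pro-`p` group `G` and closed
`H i`) -/
def IsFreeProduct (p : ℕ) {G : Type} [Group G] [TopologicalSpace G] {n : ℕ}
    (H : Fin n → Subgroup G) : Prop :=
  ∀ (P : Type) [Group P] [Finite P], (∃ k : ℕ, Nat.card P = p ^ k) →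
    ∀ φ : (i : Fin n) → (H i →* P), (∀ i, IsOpen ((φ i).ker : Set (H i))) →
      ∃! ψ : G →* P, IsOpen (ψ.ker : Set G) ∧ ∀ i, ∀ x : H i, ψ (x : G) = φ i x

/-- the conclusion of Q1: `Gal(K/F)` is the free pro-`p` product of finitely many closed subgroups
of type (i), (ii) or (iii) -/
def ConclusionOfQ1 (p : ℕ) [Fact p.Prime] {F : Type} [Field F]
    (K : IntermediateField F (AlgebraicClosure F)) : Prop :=
  ∃ (n : ℕ) (H : Fin n → Subgroup (↥K ≃ₐ[F] ↥K)),
    (∀ i, IsClosed (H i : Set (↥K ≃ₐ[F] ↥K))) ∧ IsFreeProduct p H ∧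
    ∀ i, Nonempty (H i ≃ₜ* Multiplicative (PadicInt p)) ∨ IsDecompositionGroup (H i) ∨
      (p = 2 ∧ Nat.card (H i) = 2)

/-- `P` is a partition of `F*/T` into proper subgroups: the members of `P` are subgroups
`K ≠ F*` of `F*` containing `T`, they cover `F*`, and any two of them meet in `T` -/
structure IsPartition {F : Type} [Field F] (T : Subgroup Fˣ) (P : Set (Subgroup Fˣ)) : Prop where
  le : ∀ K ∈ P, T ≤ K
  ne_top : ∀ K ∈ P, K ≠ ⊤
  cover : ∀ x : Fˣ, ∃ K ∈ P, x ∈ K
  inf : ∀ K ∈ P, ∀ K' ∈ P, K ≠ K' → K ⊓ K' = T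

/-- if `x ∉ T` lies in a part, so does `1 + x` -/
def RespectsSums {F : Type} [Field F] (T : Subgroup Fˣ) (P : Set (Subgroup Fˣ)) : Prop :=
  ∀ x v : Fˣ, x ∉ T → (v : F) = 1 + x → ∀ K ∈ P, x ∈ K → v ∈ K

/-- the symbols `(a,b)`, `a, b ∉ F*^p`, vanish only if `a` and `b` lie in the same part -/
def RespectsSymbols {F : Type} [Field F] (p : ℕ) (P : Set (Subgroup Fˣ)) : Prop :=
  ∀ a : Fˣ, a ∉ powers F p → ∀ K ∈ P, a ∈ K → normGroup p a ≤ K

/-- `1 + m ⊆ T` for the maximal ideal `m` of `O` -/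
def OneUnitsIn {F : Type} [Field F] (O : ValuationSubring F) (T : Subgroup Fˣ) : Prop :=
  ∀ x : F, x ∈ O → x⁻¹ ∉ O → ∃ t ∈ T, (t : F) = 1 + x

/-- the residue characteristic of `O` is `p`, and the residues of the elements of `T ∩ O*` are the
nonzero elements of a proper subfield of the residue field (if `1 + m ⊆ T`) -/
structure IsExceptional {F : Type} [Field F] (p : ℕ) (O : ValuationSubring F)
    (T : Subgroup Fˣ) : Prop where
  inv_notMem : (p : F)⁻¹ ∉ O
  add_mem : ∀ s t u : Fˣ, s ∈ T → s ∈ O.unitGroup → t ∈ T → t ∈ O.unitGroup →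
    u ∈ O.unitGroup → (u : F) = s + t → u ∈ T
  not_le : ¬ O.unitGroup ≤ T

/-- `p` is a unit of `O`, `1 + m ⊆ F*^p`, and `O* F*^p ≠ F*` -/
structure IsCompatible {F : Type} [Field F] (p : ℕ) (O : ValuationSubring F) : Prop where
  inv_mem : (p : F)⁻¹ ∈ O
  one_units : OneUnitsIn O (powers F p)
  ne_top : O.unitGroup ⊔ powers F p ≠ ⊤

/-- transitivity: `b ∈ N(a)` and `c ∈ N(b)` imply `c ∈ N(a)` -/
def SymbolsTransitive (F : Type) [Field F] (p : ℕ) : Prop :=
  ∀ a b c : Fˣ, a ∉ powers F p → b ∉ powers F p → b ∈ normGroup p a → c ∈ normGroup p b →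
    c ∈ normGroup p a

/-- `O` is compatible, and the norm groups are `O* F*^p` for the elements of `O* F*^p` and
`⟨a⟩ F*^p` for the elements `a` outside `O* F*^p` -/
structure DeterminesNorms {F : Type} [Field F] (p : ℕ) (O : ValuationSubring F) : Prop where
  compatible : IsCompatible p O
  unit : ∀ u : Fˣ, u ∉ powers F p → u ∈ O.unitGroup ⊔ powers F p →
    normGroup p u = O.unitGroup ⊔ powers F p
  ram : ∀ a : Fˣ, a ∉ O.unitGroup ⊔ powers F p → normGroup p a = Subgroup.zpowers a ⊔ powers F p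

theorem result (p : ℕ) [Fact p.Prime] (hp2 : p ≠ 2) (F : Type) [Field F]
    (hζ : ∃ ζ : F, IsPrimitiveRoot ζ p) :
    -- subgroups `T` which contain `F*^p`
    (∀ T : Subgroup Fˣ, powers F p ≤ T →
      (∀ P : Set (Subgroup Fˣ), IsPartition T P → RespectsSums T P →
        ∃ O : ValuationSubring F, OneUnitsIn O T ∧ ((∃ K ∈ P, O.unitGroup ≤ K) ∨
          (IsExceptional p O T ∧ T ≠ powers F p ∧ ∃ K ∈ P, T.relIndex K = 0))) ∧
      (T.index ≠ p → (T = powers F p ∨ T.index ≠ 0) →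
        ((∃ O : ValuationSubring F, OneUnitsIn O T ∧ O.unitGroup ⊔ T ≠ ⊤) ↔
          ∃ P : Set (Subgroup Fˣ), IsPartition T P ∧ RespectsSums T P))) ∧
    -- `T = F*^p`: valuation rings and Galois groups
    (∀ P : Set (Subgroup Fˣ), IsPartition (powers F p) P → RespectsSums (powers F p) P →
      (∃ K ∈ P, ∃ O : ValuationSubring F, O.unitGroup ≤ K ∧ IsCompatible p O) ∧
      ∀ K : IntermediateField F (AlgebraicClosure F), IsMaximalPExtension p K →
        IsDecompositionGroup (⊤ : Subgroup (↥K ≃ₐ[F] ↥K)) ∧ ConclusionOfQ1 p K) ∧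
    -- the characterisation
    ((powers F p).index ≠ p → List.TFAE
      [∃ O : ValuationSubring F, IsCompatible p O,
       ∃ P : Set (Subgroup Fˣ), IsPartition (powers F p) P ∧ RespectsSums (powers F p) P,
       ∃ P : Set (Subgroup Fˣ), IsPartition (powers F p) P ∧ RespectsSymbols p P]) ∧
    -- transitive symbols
    (SymbolsTransitive F p ↔ (∀ a : Fˣ, a ∉ powers F p → normGroup p a = ⊤) ∨
      ∃ O : ValuationSubring F, DeterminesNorms p O) ∧
    (SymbolsTransitive F p → (∃ a : Fˣ, a ∉ powers F p ∧ normGroup p a ≠ ⊤) →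
      ∀ K : IntermediateField F (AlgebraicClosure F), IsMaximalPExtension p K →
        IsDecompositionGroup (⊤ : Subgroup (↥K ≃ₐ[F] ↥K)) ∧ ConclusionOfQ1 p K) := by
  have hp : p.Prime := Fact.out
  have hng := Pool.Agent.Y349.EP.t_NG
  have hsy := Pool.Agent.Y349.EP.t_SYMM
  have hG : AllG := ⟨Pool.Agent.Y86.EP.t_KUM, Pool.Agent.Y279.EP.t_UP,
    Pool.Agent.Y925.EP.t_TOWER', Pool.Agent.Y419.EP.t_INERT', Pool.Agent.Y469.EP.t_MAX'⟩
  have hpF : (p : F) ≠ 0 := by
    obtain ⟨ζ, hζ⟩ := hζ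
    have : NeZero p := ⟨hp.ne_zero⟩
    exact hζ.neZero'.ne
  -- one-units
  have hpw : ∀ O : ValuationSubring F, (p : F)⁻¹ ∈ O → OneUnitsIn O (powers F p) → Pw p O := by
    intro O h1 h2
    refine ⟨h1, hpF, fun x hx hx' => ?_⟩
    obtain ⟨t, ⟨y, rfl⟩, e⟩ := h2 x hx hx'
    exact ⟨y, by rw [← e]; exact (Units.val_pow_eq_pow_val y p).symm⟩
  have hou : ∀ O : ValuationSubring F, Pw p O → OneUnitsIn O (powers F p) := by
    intro O hO x hx hx'
    obtain ⟨y, hy⟩ := hO.2.2 x hx hx'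
    have hx1 : (1 : F) + x ≠ 0 := by
      intro h
      apply hx'
      have : x = -1 := by linear_combination h
      rw [this, inv_neg, inv_one]
      exact O.neg_mem _ O.one_mem
    have hy0 : y ≠ 0 := by
      rintro rfl
      rw [zero_pow hp.ne_zero] at hy
      exact hx1 hy.symm
    refine ⟨Units.mk0 y hy0 ^ p, ⟨Units.mk0 y hy0, rfl⟩, ?_⟩
    rw [Units.val_pow_eq_pow_val, Units.val_mk0, hy]
  -- Galois groups
  have hgal : ∀ O : ValuationSubring F, Pw p O → O.unitGroup ⊔ powers F p ≠ ⊤ →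
      ∀ K : IntermediateField F (AlgebraicClosure F), IsMaximalPExtension p K →
        IsDecompositionGroup (⊤ : Subgroup (↥K ≃ₐ[F] ↥K)) ∧ ConclusionOfQ1 p K := by
    intro O hO hne K hK
    obtain ⟨c, hc⟩ : ∃ c : Fˣ, c ∉ O.unitGroup ⊔ powers F p := by
      by_contra hc
      push Not at hc
      exact hne (eq_top_iff.2 fun c _ => hc c)
    have hD : DecInert F K := decInert hG p hp hp2 F hζ O hO ⟨c, ?_⟩ K hK
    · refine ⟨?_, efratP p F K hD⟩
      obtain ⟨Γ, hΓ, w, hw, σ, hσ, hσw⟩ := hD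
      exact ⟨Γ, hΓ, w, fun τ => ⟨fun _ x => hw τ x, fun _ => trivial⟩, σ, trivial, hσ, hσw⟩
    · rintro f ⟨h6, h7⟩
      apply hc
      have h8 : c * f ^ p ∈ O.unitGroup := Pool.Agent.R675.TP.mem_unitGroup_of h6 h7
      have h9 : f ^ p ∈ powers F p := ⟨f, rfl⟩
      have h10 := mul_mem (show c * f ^ p ∈ O.unitGroup ⊔ powers F p from
        Subgroup.mem_sup_left h8)
        (inv_mem (show f ^ p ∈ O.unitGroup ⊔ powers F p from Subgroup.mem_sup_right h9))
      rwa [mul_inv_cancel_right] at h10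
  have hval : ∀ P : Set (Subgroup Fˣ), IsPartition (powers F p) P →
      RespectsSums (powers F p) P →
      ∃ K ∈ P, ∃ O : ValuationSubring F, O.unitGroup ≤ K ∧ IsCompatible p O := by
    intro P hP hs
    have hP' : Pool.Agent.R675.TP.IsPart (pwG F p) P := ⟨hP.le, hP.ne_top, hP.cover, hP.inf⟩
    obtain ⟨K, hK, O, h1, h2⟩ := Pool.Agent.E8helper26.EO.val_of_part' p hp hp2 F hpF hζ hP' hs
    refine ⟨K, hK, O, h1, h2.1, hou O h2, fun e => hP.ne_top K hK ?_⟩
    rw [eq_top_iff, ← e]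
    exact sup_le h1 (hP.le K hK)
  have hcomp : ∀ T : Subgroup Fˣ, powers F p ≤ T → ∀ P : Set (Subgroup Fˣ), IsPartition T P →
      RespectsSums T P → (T = powers F p ∨ ∀ K ∈ P, T.relIndex K ≠ 0) →
      ∃ K ∈ P, ∃ O : ValuationSubring F, O.unitGroup ≤ K ∧ OneUnitsIn O T := by
    intro T hT P hP hs hf
    obtain ⟨K, hK, O, hO⟩ := Pool.Agent.E8helper26.EO.compat_of_part p hp hp2 F hζ T hT
      ⟨hP.le, hP.ne_top, hP.cover, hP.inf⟩ hf hs
    exact ⟨K, hK, O, Pool.Agent.E8helper26.EO.unit_le hO, hO.one⟩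
  refine ⟨fun T hT => ⟨fun P hP hs => ?_, fun hidx hf => ⟨?_, ?_⟩⟩,
    fun P hP hs => ⟨hval P hP hs, ?_⟩, fun hidx => ?_, ⟨fun htr => ?_, ?_⟩, fun htr hne => ?_⟩
  · obtain ⟨O, h1, h2⟩ := Pool.Agent.E8helper26.EO.compat_or_exc p hp hp2 F hpF hζ T hT
      ⟨hP.le, hP.ne_top, hP.cover, hP.inf⟩ hs
    refine ⟨O, h1, h2.imp id ?_⟩
    rintro ⟨h3, h4, h5, h6, h7⟩
    exact ⟨⟨h3, h4, h5⟩, h6, h7⟩
  · rintro ⟨O, hO, hne⟩
    obtain ⟨P, hP, hs⟩ := Pool.Agent.E8helper26.EO.part_of_val' p hp hp2 F T hT hidx O hO hne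
    exact ⟨P, ⟨hP.le, hP.ne_top, hP.cover, hP.inf⟩, hs⟩
  · rintro ⟨P, hP, hs⟩
    obtain ⟨K, hK, O, h1, h2⟩ := hcomp T hT P hP hs (hf.imp id fun h0 K hK h3 => h0 (by
      have h4 := Subgroup.relIndex_mul_index (hP.le K hK)
      rw [h3, zero_mul] at h4
      exact h4.symm))
    refine ⟨O, h2, fun e => hP.ne_top K hK ?_⟩
    rw [eq_top_iff, ← e]
    exact sup_le h1 (hP.le K hK)
  · obtain ⟨-, -, O, -, hO⟩ := hval P hP hs
    exact hgal O (hpw O hO.inv_mem hO.one_units) hO.ne_top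
  · tfae_have 1 → 3 := by
      rintro ⟨O, hO⟩
      obtain ⟨P, hP, h1⟩ := Pool.Agent.R675.TP.part_of_val hng hsy p hp hp2 F hζ hidx O
        (hpw O hO.inv_mem hO.one_units) hO.ne_top
      exact ⟨P, ⟨hP.le, hP.ne_top, hP.cover, hP.inf⟩, h1⟩
    tfae_have 3 → 2 := by
      rintro ⟨P, hP, h1⟩
      exact ⟨P, hP, fun x v hx hv K hK hxK => h1 x hx K hK hxK ((hng p hp hp2 F).2.1 x v hv)⟩
    tfae_have 2 → 1 := by
      rintro ⟨P, hP, hs⟩
      obtain ⟨-, -, O, -, hO⟩ := hval P hP hs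
      exact ⟨O, hO⟩
    tfae_finish
  · by_cases hne : ∃ a : Fˣ, a ∉ powers F p ∧ normGroup p a ≠ ⊤
    · obtain ⟨O, h1, h2, h3, h4⟩ := Pool.Agent.E8helper26.EO.classify' p hp hp2 F hpF hζ htr hne
      exact Or.inr ⟨O, ⟨h1.1, hou O h1, h2⟩, h3, h4⟩
    · left
      intro a ha
      by_contra hc
      exact hne ⟨a, ha, hc⟩
  · rintro (h | ⟨O, hO⟩)
    · intro a b c ha _ _ _
      rw [h a ha]
      trivial
    · exact Pool.Agent.R675.TP.trans_of hp F (O.unitGroup ⊔ powers F p) le_sup_right hO.unit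
        hO.ram
  · obtain ⟨O, h1, h2, -, -⟩ := Pool.Agent.E8helper26.EO.classify' p hp hp2 F hpF hζ htr hne
    exact hgal O h1 h2

end Pool.Agent.Results.MP_600e55_nt.OddPartitionsH26
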