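import Mathlib
import Pool.Agent.E8helper26.ETC.Tra
import Pool.Agent.Y920.ETC.GalH
import Pool.Agent.Y620.ET.Extv
import Pool.Agent.Y37.ET.Max2

set_option autoImplicit false

/-! # MP_600e55_nt: valuations and partitions of `F*/F*²`, `p = 2`

Let `F` be a field of characteristic not two; `F*/F*²` may be infinite. Assume that `F*/F*²` does not
have two elements if `-1` is a square, and does not have four elements otherwise. Then `F` has a
valuation ring `O` with `2 ∈ O*`, `1 + m ⊆ F*²` and `O* F*² ≠ F*` if and only if `F*/F*²` has a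
partition into proper subgroups such that `x` and `1 + x` lie in the same part for all `x` with
`x, -x ∉ F*²`. In this case the maximal pro-`2` Galois group is the decomposition group of a
valuation with nontrivial inertia, and the conclusion of Q1 holds.

Outline. Call `w` small if `1 + w` is a square. Let `r + s = 1` where `r, -r, s, -rs` are not
squares; `r` and `s` lie in one part `K`. If `x + y = z` in a part `K` and `-xy` is not a square,
multiplication by `x/z` preserves the small elements outside of `K`. Hence so does multiplication by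
`r`, `r⁻¹`, `s`, `s⁻¹`, `-1`. Suppose that `-1` is a square and `ρ + σ = 1` is another such equation
in another part `K'`. From the small element `4r/s²` one gets that `4ρ` and `4ρ⁻¹` are small, so
`ρ` would be a square if multiplication by `1/2` preserved the small elements outside of `K`. It
does: otherwise `1 - r²`, `2` and `1 + 2r = u²` are squares, and `(u - 1)(u + 1) = 2r` leads to a
contradiction. So all nonrigid elements lie in one part. If `-1` is not a square, all elements
outside of the part of `-1` are rigid. The exceptional cases in the construction of valuation rings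
from rigid elements do not occur, as multiplication by any `h ∈ K` or by its inverse preserves the
small elements outside of `K`. -/

namespace Pool.Agent.Results.MP_600e55_nt.PartitionsTwoH26

open Pool.Agent.Y920.ETC

/-- the group of squares of `F*` -/
def squares (F : Type) [Field F] : Subgroup Fˣ := (powMonoidHom 2 : Fˣ →* Fˣ).range

/-- the group of the nonzero values of `x² - a y²`: the norm group of `F(√a)` if `a` is not a
square; `b` is in `normGroup a` if and only if the quaternion algebra `(a, b)` splits -/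
def normGroup {F : Type} [Field F] (a : Fˣ) : Subgroup Fˣ where
  carrier := {c | ∃ x y : F, (c : F) = x ^ 2 - a * y ^ 2}
  one_mem' := (nG a).one_mem
  mul_mem' := (nG a).mul_mem
  inv_mem' := (nG a).inv_mem

/-- `K` is the compositum of the finite Galois extensions of `F` of 2-power degree -/
def IsMaximalTwoExtension {F : Type} [Field F] (K : IntermediateField F (AlgebraicClosure F)) :
    Prop :=
  K = sSup {L : IntermediateField F (AlgebraicClosure F) |
    FiniteDimensional F L ∧ IsGalois F L ∧ ∃ k : ℕ, Module.finrank F L = 2 ^ k}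

/-- `H` is the decomposition group in `Gal(K/F)` of a valuation of `K`, and the inertia group is
not trivial -/
def IsDecompositionGroup {F : Type} [Field F] {K : IntermediateField F (AlgebraicClosure F)}
    (H : Subgroup (↥K ≃ₐ[F] ↥K)) : Prop :=
  ∃ (Γ : Type) (_ : LinearOrderedCommGroupWithZero Γ) (w : Valuation K Γ),
    (∀ σ : ↥K ≃ₐ[F] ↥K, σ ∈ H ↔ ∀ x : ↥K, (w (σ x) ≤ 1 ↔ w x ≤ 1)) ∧
    ∃ σ ∈ H, σ ≠ 1 ∧ ∀ x : ↥K, w x ≤ 1 → w (σ x - x) < 1

/-- `G` is the free pro-`2` product of its subgroups `H i` (for a pro-`2` group `G` and closed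
`H i`) -/
def IsFreeProduct {G : Type} [Group G] [TopologicalSpace G] {n : ℕ}
    (H : Fin n → Subgroup G) : Prop :=
  ∀ (P : Type) [Group P] [Finite P], (∃ k : ℕ, Nat.card P = 2 ^ k) →
    ∀ φ : (i : Fin n) → (H i →* P), (∀ i, IsOpen ((φ i).ker : Set (H i))) →
      ∃! ψ : G →* P, IsOpen (ψ.ker : Set G) ∧ ∀ i, ∀ x : H i, ψ (x : G) = φ i x

/-- the conclusion of Q1 for `p = 2`: `Gal(K/F)` is the free pro-`2` product of finitely many closed
subgroups of type (i), (ii) or (iii) -/
def ConclusionOfQ1 {F : Type} [Field F] (K : IntermediateField F (AlgebraicClosure F)) : Prop :=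
  ∃ (n : ℕ) (H : Fin n → Subgroup (↥K ≃ₐ[F] ↥K)),
    (∀ i, IsClosed (H i : Set (↥K ≃ₐ[F] ↥K))) ∧ IsFreeProduct H ∧
    ∀ i, Nonempty (H i ≃ₜ* Multiplicative (PadicInt 2)) ∨ IsDecompositionGroup (H i) ∨
      Nat.card (H i) = 2

/-- `P` is a partition of `F*/F*²` into proper subgroups: the members of `P` are subgroups
`K ≠ F*` of `F*` containing `F*²`, they cover `F*`, and any two of them meet in `F*²` -/
structure IsPartition (F : Type) [Field F] (P : Set (Subgroup Fˣ)) : Prop where
  le : ∀ K ∈ P, squares F ≤ K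
  ne_top : ∀ K ∈ P, K ≠ ⊤
  cover : ∀ x : Fˣ, ∃ K ∈ P, x ∈ K
  inf : ∀ K ∈ P, ∀ K' ∈ P, K ≠ K' → K ⊓ K' = squares F

/-- if `x`, where `x, -x ∉ F*²`, lies in a part, so does `1 + x` -/
def RespectsSums {F : Type} [Field F] (P : Set (Subgroup Fˣ)) : Prop :=
  ∀ x v : Fˣ, x ∉ squares F → -x ∉ squares F → (v : F) = 1 + x → ∀ K ∈ P, x ∈ K → v ∈ K

/-- if `x, -x ∉ F*²` and `(-x, y)` vanishes then `y` lies in the part of `x` -/
def RespectsSymbols {F : Type} [Field F] (P : Set (Subgroup Fˣ)) : Prop :=
  ∀ x : Fˣ, x ∉ squares F → -x ∉ squares F → ∀ K ∈ P, x ∈ K → normGroup (-x) ≤ K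

/-- the group `O* F*²` of the elements which are units of `O` up to squares -/
noncomputable def unitClasses {F : Type} [Field F] (O : ValuationSubring F) : Subgroup Fˣ :=
  O.unitGroup ⊔ squares F

/-- `2` is a unit of `O`, `1 + m ⊆ F*²`, and `O* F*² ≠ F*` -/
structure IsCompatible {F : Type} [Field F] (O : ValuationSubring F) : Prop where
  inv_mem : (2 : F)⁻¹ ∈ O
  one_add : ∀ x : F, x ∈ O → x⁻¹ ∉ O → ∃ y : F, y ^ 2 = 1 + x
  ne_top : unitClasses O ≠ ⊤

theorem result (F : Type) [Field F] (h2 : (2 : F) ≠ 0) :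
    -- from partitions to valuation rings and Galois groups
    (((-1 : Fˣ) ∉ squares F → (squares F).index ≠ 4) →
      ∀ P : Set (Subgroup Fˣ), IsPartition F P → RespectsSums P →
      (∃ O : ValuationSubring F, IsCompatible O) ∧
      ∀ K : IntermediateField F (AlgebraicClosure F), IsMaximalTwoExtension K →
        IsDecompositionGroup (⊤ : Subgroup (↥K ≃ₐ[F] ↥K)) ∧ ConclusionOfQ1 K) ∧
    -- the characterisation
    (((-1 : Fˣ) ∈ squares F → (squares F).index ≠ 2) →
      ((-1 : Fˣ) ∉ squares F → (squares F).index ≠ 4) → List.TFAE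
      [∃ O : ValuationSubring F, IsCompatible O,
       ∃ P : Set (Subgroup Fˣ), IsPartition F P ∧ RespectsSums P,
       ∃ P : Set (Subgroup Fˣ), IsPartition F P ∧ RespectsSymbols P]) := by
  -- Galois groups
  have hgal : ∀ O : ValuationSubring F, IsCompatible O →
      ∀ K : IntermediateField F (AlgebraicClosure F), IsMaximalTwoExtension K →
        IsDecompositionGroup (⊤ : Subgroup (↥K ≃ₐ[F] ↥K)) ∧ ConclusionOfQ1 K := by
    intro O hO K hK
    obtain ⟨c, hc⟩ : ∃ c : Fˣ, c ∉ unitClasses O := by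
      by_contra hc
      push Not at hc
      exact hO.ne_top (eq_top_iff.2 fun c _ => hc c)
    have hS : Sqr O := ⟨hO.inv_mem, h2, fun x hx hx' => by
      obtain ⟨y, hy⟩ := hO.one_add x hx hx'
      exact ⟨y, by rw [← hy, pow_two]⟩⟩
    have hD : DecInert F K := decInert Pool.Agent.Y620.ET.t_EXTV Pool.Agent.Y37.ET.t_MAX2 F h2 O hS
      ⟨c, ?_⟩ K hK
    · obtain ⟨n, H, hcl, hfree, hty⟩ := efratTwo F K hD
      refine ⟨?_, n, H, hcl, fun P _ _ hP φ hφ => hfree P hP φ hφ, fun i => ?_⟩
      · obtain ⟨Γ, hΓ, w, hw, σ, hσ, hσw⟩ := hD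
        exact ⟨Γ, hΓ, w, fun τ => ⟨fun _ x => hw τ x, fun _ => trivial⟩, σ, trivial, hσ, hσw⟩
      · rcases hty i with h | h | h
        · exact Or.inl h
        · exact Or.inr (Or.inl h)
        · exact Or.inr (Or.inr h.2)
    · rintro f ⟨h6, h7⟩
      apply hc
      have h8 : c * f ^ 2 ∈ O.unitGroup :=
        Pool.Agent.E8helper26.ETC.val_eq_one_of h6 (by rwa [← Units.val_inv_eq_inv_val])
      have h9 : f ^ 2 ∈ squares F := ⟨f, rfl⟩
      have h10 := mul_mem (show c * f ^ 2 ∈ unitClasses O from Subgroup.mem_sup_left h8)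
        (inv_mem (show f ^ 2 ∈ unitClasses O from Subgroup.mem_sup_right h9))
      rwa [mul_inv_cancel_right] at h10
  -- valuation rings from partitions
  have hval : ((-1 : Fˣ) ∉ squares F → (squares F).index ≠ 4) →
      ∀ P : Set (Subgroup Fˣ), IsPartition F P → RespectsSums P →
      ∃ O : ValuationSubring F, IsCompatible O := by
    intro hidx P hP hs
    have hP' : Pool.Agent.E8helper26.ETC.Ptn P := ⟨hP.le, hP.cover, hP.inf, hs⟩
    obtain ⟨O, H, hO, hOH, hSH, hHt, -⟩ :=
      Pool.Agent.E8helper26.ETC.val_of_part hP' h2 hP.ne_top hidx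
    refine ⟨O, hO.1, fun x hx hx' => ?_, fun e => hHt (eq_top_iff.2 ?_)⟩
    · obtain ⟨y, hy⟩ := hO.2.2 x hx hx'
      exact ⟨y, by rw [pow_two, ← hy]⟩
    · rw [← e]
      exact sup_le hOH hSH
  refine ⟨fun hidx P hP hs => ?_, fun hidx2 hidx4 => ?_⟩
  · obtain ⟨O, hO⟩ := hval hidx P hP hs
    exact ⟨⟨O, hO⟩, hgal O hO⟩
  · tfae_have 1 → 2 := by
      rintro ⟨O, hO⟩
      have hS : Sqr O := ⟨hO.inv_mem, h2, fun x hx hx' => by
        obtain ⟨y, hy⟩ := hO.one_add x hx hx'
        exact ⟨y, by rw [← hy, pow_two]⟩⟩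
      obtain ⟨P, hP, hne⟩ := Pool.Agent.E8helper26.ETC.part_of_val hS hO.ne_top hidx2
      exact ⟨P, ⟨hP.le, hne, hP.cover, hP.inf⟩, hP.sum⟩
    tfae_have 2 → 1 := by
      rintro ⟨P, hP, hs⟩
      exact hval hidx4 P hP hs
    tfae_have 2 ↔ 3 := by
      constructor
      · rintro ⟨P, hP, hs⟩
        exact ⟨P, hP, (Pool.Agent.E8helper26.ETC.symb_iff hP.le).1 hs⟩
      · rintro ⟨P, hP, hs⟩
        exact ⟨P, hP, (Pool.Agent.E8helper26.ETC.symb_iff hP.le).2 hs⟩
    tfae_finish

end Pool.Agent.Results.MP_600e55_nt.PartitionsTwoH26
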