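import Mathlib
import Pool.Agent.E8helper26.ETC.Nonrigid
import Pool.Agent.Y920.ETC.GalH
import Pool.Agent.Y620.ET.Extv
import Pool.Agent.Y37.ET.Max2

set_option autoImplicit false

/-! # MP_600e55_nt: fields whose norm groups have at most `N` classes, `p = 2`: a bound of order `N²`

Let `F` be a field of characteristic not two such that every norm group `N(a)` of a quadratic
extension `F(√a)` has at most `N` classes modulo `F*²` (`F*/F*²` may be infinite).

* At most `14 N² + 1` classes `a ≠ 1, -1` have a norm group with more than two classes.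
* There is a valuation ring `O` with `2 ∈ O*`, `1 + m ⊆ F*²` and at most `32 N²` classes of units.
* If `F*/F*²` has more than `32 N²` elements, then the maximal pro-`2` Galois group is the
  decomposition group of a valuation with nontrivial inertia, and the conclusion of Q1 holds.

Outline. For `w, y ∈ F*` write `w ≪ y` if `y + w ∈ y F*²`, and `y ≤ z` if `w ≪ y` implies `w ≪ z`
unless `w` is in one of few (at most a constant times `N²`) classes. If `x + y = z` and `-xy` is not
a square then `x ≤ z`. Let `r + s = 1` where `r`, `-r`, `s`, `-rs` are not squares; a class `a ≠ ±1`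
has a norm group with more than two classes if and only if it contains such an `r`. Then `r`, `s` and
`1 + r` are units, i.e. `≤ 1` and `≥ 1`. The element `w = 4r/s²` has the class of `r`, satisfies
`w ≥ 1` if `2 ≥ 1`, and `1 + w = ((1+r)/(1-r))²`, so `w ≪ 1`; and only few classes contain elements
`w ≥ 1` with `w ≪ 1`. If `1 + r` is not in the class of `s` or not in that of `-s` for some such
`r, s`, then `2 ≥ 1`. Otherwise `-1`, `1 - r²` and `1 - 2r` are squares for all such `r, s`. If
`1 ≤ 2`, the last property bounds the number of the classes of the `r`; if not, there are no elements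
`w ≥ 1`, `w ∉ F*²`, with `w ≪ 1`, and then the elements `1 - r x²` of the norm group of `F(√r)` have
different classes for units `x` of different classes. -/

namespace Pool.Agent.Results.MP_600e55_nt.QuadraticBoundH26

open Pool.Agent.Y920.ETC

/-- the group of squares of `F*` -/
def squares (F : Type) [Field F] : Subgroup Fˣ := (powMonoidHom 2 : Fˣ →* Fˣ).range

/-- the group of the nonzero values of `x² - a y²`: the norm group of `F(√a)` if `a` is not a
square -/
def normGroup {F : Type} [Field F] (a : Fˣ) : Subgroup Fˣ where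
  carrier := {c | ∃ x y : F, (c : F) = x ^ 2 - a * y ^ 2}
  one_mem' := (nG a).one_mem
  mul_mem' := (nG a).mul_mem
  inv_mem' := (nG a).inv_mem

/-- the classes modulo squares of the `a` such that neither `a` nor `-a` is a square and the norm
group of `F(√a)` has more than two classes -/
def bigClasses (F : Type) [Field F] : Set (Fˣ ⧸ squares F) :=
  {c | ∃ a : Fˣ, (a : Fˣ ⧸ squares F) = c ∧ a ∉ squares F ∧ -a ∉ squares F ∧
    2 < (squares F).relIndex (normGroup a)}

/-- `K` is the compositum of the finite Galois extensions of `F` of 2-power degree -/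
def IsMaximalTwoExtension {F : Type} [Field F] (K : IntermediateField F (AlgebraicClosure F)) :
    Prop :=
  K = sSup {L : IntermediateField F (AlgebraicClosure F) |
    FiniteDimensional F L ∧ IsGalois F L ∧ ∃ k : ℕ, Module.finrank F L = 2 ^ k}

theorem result (F : Type) [Field F] (h2 : (2 : F) ≠ 0) (N : ℕ) (hN1 : 1 ≤ N)
    (hN : ∀ a : Fˣ, a ∉ squares F →
      (squares F).relIndex (normGroup a) ≠ 0 ∧ (squares F).relIndex (normGroup a) ≤ N) :
    -- few norm groups have more than two classes
    ((bigClasses F).Finite ∧ (bigClasses F).ncard ≤ 14 * N ^ 2 + 1) ∧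
    -- a valuation ring whose units have few classes and whose one-units are squares
    (∃ (O : ValuationSubring F) (U : Subgroup Fˣ), O.unitGroup ≤ U ∧ squares F ≤ U ∧
      (squares F).relIndex U ≠ 0 ∧ (squares F).relIndex U ≤ 32 * N ^ 2 ∧
      (2 : F)⁻¹ ∈ O ∧ ∀ x : F, x ∈ O → x⁻¹ ∉ O → ∃ y : F, y ^ 2 = 1 + x) ∧
    ((squares F).index = 0 ∨ 32 * N ^ 2 < (squares F).index →
      ∀ K : IntermediateField F (AlgebraicClosure F), IsMaximalTwoExtension K →
      -- `Gal(K/F)` is the decomposition group of a valuation with nontrivial inertia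
      (∃ (Γ : Type) (_ : LinearOrderedCommGroupWithZero Γ) (w : Valuation K Γ),
        (∀ (σ : K ≃ₐ[F] K) (x : K), w (σ x) ≤ 1 ↔ w x ≤ 1) ∧
        ∃ σ : K ≃ₐ[F] K, σ ≠ 1 ∧ ∀ x : K, w x ≤ 1 → w (σ x - x) < 1) ∧
      -- the conclusion of Q1 for `p = 2`
      ∃ (n : ℕ) (H : Fin n → Subgroup (↥K ≃ₐ[F] ↥K)),
        (∀ i, IsClosed (H i : Set (↥K ≃ₐ[F] ↥K))) ∧
        (∀ (P : Type) [Group P] [Finite P], (∃ k : ℕ, Nat.card P = 2 ^ k) →
          ∀ φ : (i : Fin n) → (H i →* P), (∀ i, IsOpen ((φ i).ker : Set (H i))) →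
            ∃! ψ : (↥K ≃ₐ[F] ↥K) →* P,
              IsOpen (ψ.ker : Set (↥K ≃ₐ[F] ↥K)) ∧
              ∀ i, ∀ x : H i, ψ (x : ↥K ≃ₐ[F] ↥K) = φ i x) ∧
        (∀ i,
          Nonempty (H i ≃ₜ* Multiplicative (PadicInt 2)) ∨
          (∃ (Γ : Type) (_ : LinearOrderedCommGroupWithZero Γ) (w : Valuation (↥K) Γ),
            (∀ σ : ↥K ≃ₐ[F] ↥K, σ ∈ H i ↔ ∀ x : ↥K, (w (σ x) ≤ 1 ↔ w x ≤ 1)) ∧
            ∃ σ ∈ H i, σ ≠ 1 ∧ ∀ x : ↥K, w x ≤ 1 → w (σ x - x) < 1) ∨
          ((2 : ℕ) = 2 ∧ Nat.card (H i) = 2))) := by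
  obtain ⟨O, U, hO, hU, hsU, h0, hc⟩ := Pool.Agent.E8helper26.ETC.exists_ring h2 hN1 hN
  refine ⟨Pool.Agent.E8helper26.ETC.ncard_big h2 hN, ⟨O, U, hU, hsU, h0, hc, hO.1, ?_⟩, ?_⟩
  · intro x hx hx'
    obtain ⟨y, hy⟩ := hO.2.2 x hx hx'
    exact ⟨y, by rw [pow_two, ← hy]⟩
  · intro hbig K hK
    have hex : ∃ c : Fˣ, c ∉ U := by
      by_contra hcon
      push Not at hcon
      have hUt : U = ⊤ := by
        rw [eq_top_iff]
        exact fun c _ => hcon c
      rw [hUt, Subgroup.relIndex_top_right] at h0 hc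
      rcases hbig with h | h
      · exact h0 h
      · exact absurd hc (not_le.2 h)
    obtain ⟨c, hcU⟩ := hex
    have hD : DecInert F K := decInert Pool.Agent.Y620.ET.t_EXTV Pool.Agent.Y37.ET.t_MAX2 F h2 O hO
      ⟨c, ?_⟩ K hK
    · exact ⟨hD, efratTwo F K hD⟩
    · rintro f ⟨h6, h7⟩
      apply hcU
      have h8 : c * f ^ 2 ∈ O.unitGroup := by
        rw [ValuationSubring.mem_unitGroup_iff]
        refine le_antisymm ((ValuationSubring.valuation_le_one_iff _ _).2 h6) ?_
        have h9 := (ValuationSubring.valuation_le_one_iff O _).2 h7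
        rw [Units.val_inv_eq_inv_val, map_inv₀] at h9
        have h10 : O.valuation ((c * f ^ 2 : Fˣ) : F) ≠ 0 := by
          rw [Valuation.ne_zero_iff]
          exact Units.ne_zero _
        exact (inv_le_one₀ (zero_lt_iff.2 h10)).1 h9
      have h11 : f ^ 2 ∈ U := hsU ⟨f, rfl⟩
      have h12 := mul_mem (hU h8) (inv_mem h11)
      rwa [mul_inv_cancel_right] at h12

end Pool.Agent.Results.MP_600e55_nt.QuadraticBoundH26
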