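import Mathlib
import Pool.Agent.E8helper26.ETC.Tra
import Pool.Agent.Y920.ETC.GalH
import Pool.Agent.Y620.ET.Extv
import Pool.Agent.Y37.ET.Max2

set_option autoImplicit false

/-! # MP_600e55_nt: fields with transitive symbols, `p = 2`

Let `F` be a field of characteristic not two in which `-1` is a square, and let `N(a)` be the norm
group of `F(√a)`. The fields such that `b ∈ N(a)` and `c ∈ N(b)` imply `c ∈ N(a)`, for all
`a, b ∉ F*²`, are classified: all `N(a)` are `F*`, or a valuation ring determines all `N(a)`. In the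
second case the conclusion of Q1 holds: the maximal pro-`2` Galois group is the decomposition group
of a valuation with nontrivial inertia. There is no finiteness assumption.

Outline. The norm groups `N(a)`, `a ∉ F*²`, form a partition of `F*/F*²` such that `x` and `1 + x`
lie in the same part for `x ∉ F*²`. The main step is that all nonrigid elements lie in one part. -/

namespace Pool.Agent.Results.MP_600e55_nt.TransitiveTwoH26

open Pool.Agent.Y920.ETC

/-- the group of squares of `F*` -/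
def squares (F : Type) [Field F] : Subgroup Fˣ := (powMonoidHom 2 : Fˣ →* Fˣ).range

/-- the group of the nonzero values of `x² - a y²`: the norm group of `F(√a)` if `a` is not a
square; `b` is in `normGroup a` if and only if the quaternion algebra `(a, b)` splits -/
def normGroup {F : Type} [Field F] (a : Fˣ) : Subgroup Fˣ where
  carrier := {c | ∃ x y : F, (c : F) = x ^ 2 - a * y ^ 2}
  one_mem' := (nG a).one_mem
  mul_mem' := (nG a).mul_mem
  inv_mem' := (nG a).inv_mem

/-- `K` is the compositum of the finite Galois extensions of `F` of 2-power degree -/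
def IsMaximalTwoExtension {F : Type} [Field F] (K : IntermediateField F (AlgebraicClosure F)) :
    Prop :=
  K = sSup {L : IntermediateField F (AlgebraicClosure F) |
    FiniteDimensional F L ∧ IsGalois F L ∧ ∃ k : ℕ, Module.finrank F L = 2 ^ k}

/-- `H` is the decomposition group in `Gal(K/F)` of a valuation of `K`, and the inertia group is
not trivial -/
def IsDecompositionGroup {F : Type} [Field F] {K : IntermediateField F (AlgebraicClosure F)}
    (H : Subgroup (↥K ≃ₐ[F] ↥K)) : Prop :=
  ∃ (Γ : Type) (_ : LinearOrderedCommGroupWithZero Γ) (w : Valuation K Γ),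
    (∀ σ : ↥K ≃ₐ[F] ↥K, σ ∈ H ↔ ∀ x : ↥K, (w (σ x) ≤ 1 ↔ w x ≤ 1)) ∧
    ∃ σ ∈ H, σ ≠ 1 ∧ ∀ x : ↥K, w x ≤ 1 → w (σ x - x) < 1

/-- `G` is the free pro-`2` product of its subgroups `H i` (for a pro-`2` group `G` and closed
`H i`) -/
def IsFreeProduct {G : Type} [Group G] [TopologicalSpace G] {n : ℕ}
    (H : Fin n → Subgroup G) : Prop :=
  ∀ (P : Type) [Group P] [Finite P], (∃ k : ℕ, Nat.card P = 2 ^ k) →
    ∀ φ : (i : Fin n) → (H i →* P), (∀ i, IsOpen ((φ i).ker : Set (H i))) →
      ∃! ψ : G →* P, IsOpen (ψ.ker : Set G) ∧ ∀ i, ∀ x : H i, ψ (x : G) = φ i x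

/-- the conclusion of Q1 for `p = 2`: `Gal(K/F)` is the free pro-`2` product of finitely many closed
subgroups of type (i), (ii) or (iii) -/
def ConclusionOfQ1 {F : Type} [Field F] (K : IntermediateField F (AlgebraicClosure F)) : Prop :=
  ∃ (n : ℕ) (H : Fin n → Subgroup (↥K ≃ₐ[F] ↥K)),
    (∀ i, IsClosed (H i : Set (↥K ≃ₐ[F] ↥K))) ∧ IsFreeProduct H ∧
    ∀ i, Nonempty (H i ≃ₜ* Multiplicative (PadicInt 2)) ∨ IsDecompositionGroup (H i) ∨
      Nat.card (H i) = 2

/-- the group `O* F*²` of the elements which are units of `O` up to squares -/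
noncomputable def unitClasses {F : Type} [Field F] (O : ValuationSubring F) : Subgroup Fˣ :=
  O.unitGroup ⊔ squares F

/-- `2` is a unit of `O`, `1 + m ⊆ F*²`, and `O* F*² ≠ F*` -/
structure IsCompatible {F : Type} [Field F] (O : ValuationSubring F) : Prop where
  inv_mem : (2 : F)⁻¹ ∈ O
  one_add : ∀ x : F, x ∈ O → x⁻¹ ∉ O → ∃ y : F, y ^ 2 = 1 + x
  ne_top : unitClasses O ≠ ⊤

/-- transitivity: `b ∈ N(a)` and `c ∈ N(b)` imply `c ∈ N(a)` -/
def SymbolsTransitive (F : Type) [Field F] : Prop :=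
  ∀ a b c : Fˣ, a ∉ squares F → b ∉ squares F → b ∈ normGroup a → c ∈ normGroup b →
    c ∈ normGroup a

/-- `O` is compatible, and the norm groups are `O* F*²` for the elements of `O* F*²` and
`⟨a⟩ F*²` for the elements `a` outside `O* F*²` -/
structure DeterminesNorms {F : Type} [Field F] (O : ValuationSubring F) : Prop where
  compatible : IsCompatible O
  unit : ∀ u : Fˣ, u ∉ squares F → u ∈ unitClasses O → normGroup u = unitClasses O
  ram : ∀ a : Fˣ, a ∉ unitClasses O → normGroup a = Subgroup.zpowers a ⊔ squares F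

theorem result (F : Type) [Field F] (h2 : (2 : F) ≠ 0) (hε : (-1 : Fˣ) ∈ squares F) :
    -- the classification
    (SymbolsTransitive F ↔ (∀ a : Fˣ, a ∉ squares F → normGroup a = ⊤) ∨
      ∃ O : ValuationSubring F, DeterminesNorms O) ∧
    -- Galois groups
    (SymbolsTransitive F → (∃ a : Fˣ, a ∉ squares F ∧ normGroup a ≠ ⊤) →
      ∀ K : IntermediateField F (AlgebraicClosure F), IsMaximalTwoExtension K →
        IsDecompositionGroup (⊤ : Subgroup (↥K ≃ₐ[F] ↥K)) ∧ ConclusionOfQ1 K) := by
  -- Galois groups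
  have hgal : ∀ O : ValuationSubring F, IsCompatible O →
      ∀ K : IntermediateField F (AlgebraicClosure F), IsMaximalTwoExtension K →
        IsDecompositionGroup (⊤ : Subgroup (↥K ≃ₐ[F] ↥K)) ∧ ConclusionOfQ1 K := by
    intro O hO K hK
    obtain ⟨c, hc⟩ : ∃ c : Fˣ, c ∉ unitClasses O := by
      by_contra hc
      push Not at hc
      exact hO.ne_top (eq_top_iff.2 fun c _ => hc c)
    have hS : Sqr O := ⟨hO.inv_mem, h2, fun x hx hx' => by
      obtain ⟨y, hy⟩ := hO.one_add x hx hx'
      exact ⟨y, by rw [← hy, pow_two]⟩⟩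
    have hD : DecInert F K := decInert Pool.Agent.Y620.ET.t_EXTV Pool.Agent.Y37.ET.t_MAX2 F h2 O hS
      ⟨c, ?_⟩ K hK
    · obtain ⟨n, H, hcl, hfree, hty⟩ := efratTwo F K hD
      refine ⟨?_, n, H, hcl, fun P _ _ hP φ hφ => hfree P hP φ hφ, fun i => ?_⟩
      · obtain ⟨Γ, hΓ, w, hw, σ, hσ, hσw⟩ := hD
        exact ⟨Γ, hΓ, w, fun τ => ⟨fun _ x => hw τ x, fun _ => trivial⟩, σ, trivial, hσ, hσw⟩
      · rcases hty i with h | h | h
        · exact Or.inl h
        · exact Or.inr (Or.inl h)
        · exact Or.inr (Or.inr h.2)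
    · rintro f ⟨h6, h7⟩
      apply hc
      have h8 : c * f ^ 2 ∈ O.unitGroup :=
        Pool.Agent.E8helper26.ETC.val_eq_one_of h6 (by rwa [← Units.val_inv_eq_inv_val])
      have h9 : f ^ 2 ∈ squares F := ⟨f, rfl⟩
      have h10 := mul_mem (show c * f ^ 2 ∈ unitClasses O from Subgroup.mem_sup_left h8)
        (inv_mem (show f ^ 2 ∈ unitClasses O from Subgroup.mem_sup_right h9))
      rwa [mul_inv_cancel_right] at h10
  have hcl : SymbolsTransitive F → (∃ a : Fˣ, a ∉ squares F ∧ normGroup a ≠ ⊤) →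
      ∃ O : ValuationSubring F, DeterminesNorms O := by
    intro htr hne
    obtain ⟨O, hO, ht, hu, hr⟩ := Pool.Agent.E8helper26.ETC.det_of_trs hε h2 htr hne
    refine ⟨O, ⟨hO.1, fun x hx hx' => ?_, ht⟩, hu, hr⟩
    obtain ⟨y, hy⟩ := hO.2.2 x hx hx'
    exact ⟨y, by rw [pow_two, ← hy]⟩
  refine ⟨⟨fun htr => ?_, ?_⟩, fun htr hne => ?_⟩
  · by_cases hne : ∃ a : Fˣ, a ∉ squares F ∧ normGroup a ≠ ⊤
    · exact Or.inr (hcl htr hne)
    · left
      intro a ha
      by_contra hc
      exact hne ⟨a, ha, hc⟩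
  · rintro (h | ⟨O, hO⟩)
    · intro a b c ha _ _ _
      rw [h a ha]
      trivial
    · exact Pool.Agent.E8helper26.ETC.trs_of_det (le_sup_right : squares F ≤ unitClasses O)
        hO.unit hO.ram
  · obtain ⟨O, hO⟩ := hcl htr hne
    exact hgal O hO.compatible

end Pool.Agent.Results.MP_600e55_nt.TransitiveTwoH26
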